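import Mathlib
import Pool.Agent.helper35.BQ.Defs
import Pool.Agent.helper12.TZ.DefsV

/-!
# Divisibility of the alternating sums by powers of `p`: definitions for the statement

`Extension`, `altSum` are those of `helper58/DC/Defs.lean`, `AI` (the group `A[B] = E[B] / G` of Dade) and `AB` (the
stabiliser `A_B` of the block `B` of `χ` in `A = E / G`) those of `helper35/BQ/Defs.lean`.
-/

set_option autoImplicit false

namespace Pool.Agent.MAPW

open Pool.Agent.helper58.DC Pool.Agent.BQ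

/-- `c ≥ 1`, and for some element `z` of the centre of `D` the element `z ^ (p ^ (c - 1))` is not in the commutator
subgroup `[D, D]` (for example, `D` is abelian and `p ^ c` divides the exponent of `D`). -/
def CentreOut (p c : ℕ) {G : Type} [Group G] (D : Subgroup G) : Prop :=
  1 ≤ c ∧ ∃ z ∈ D, (∀ d ∈ D, z * d = d * z) ∧ z ^ p ^ (c - 1) ∉ ⁅D, D⁆

/-- Jordan's totient `J2 n`: `n ^ 2` times the product of the `1 - 1 / l ^ 2`, `l` the prime divisors of `n`. -/
noncomputable def J2 (n : ℕ) : ℕ :=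
  ∏ l ∈ n.primeFactors, l ^ (2 * (n.factorization l - 1)) * (l ^ 2 - 1)

/-- `C` is a normal subgroup of `p`-power index of `W ⊓ A_B`, it contains `W ⊓ A[B]`, and it is generated by `W ⊓ A[B]` and
an element `s` of order prime to `p`. -/
structure Adm {G E A : Type} [Group G] [Group E] [Group A] (X : Extension G E A) (p : ℕ)
    (M : Ideal (integralClosure ℤ ℂ)) (χ : G → ℂ) (W C : Subgroup A) (s : A) : Prop where
  le : C ≤ W ⊓ AB X M χ
  ge : W ⊓ AI X M χ ≤ C
  nor : ∀ w ∈ W ⊓ AB X M χ, ∀ y ∈ C, w * y * w⁻¹ ∈ C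
  idx : ∃ k : ℕ, C.relIndex (W ⊓ AB X M χ) = p ^ k
  mem : s ∈ C
  gen : C ≤ Subgroup.zpowers s ⊔ (W ⊓ AI X M χ)
  ord : ¬ p ∣ orderOf s

end Pool.Agent.MAPW
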