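import Pool.Agent.helper12.TY.All
import Pool.Agent.helper12.TY.DefsW

/-!
# Project ty (MP_baa4d7_al): the final theorem
-/

set_option autoImplicit false

namespace Pool.Agent.TY

open Pool.Agent.helper58.DC Pool.Agent.DI Pool.Agent.GR Pool.Agent.OB Pool.Agent.TZ

theorem FinW_main (p : ℕ) (hpr : p.Prime) (M : Ideal (integralClosure ℤ ℂ)) (hM : M.IsMaximal)
    (hp : (p : integralClosure ℤ ℂ) ∈ M) (G : Type) [Group G] [Finite G]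
    (hG : IsOp p (⊤ : Subgroup G) ⊥) (χ : G → ℂ) (hχ : χ ∈ Irr G) (D : Subgroup G)
    (hD : Pool.Agent.MAP.DefectGroup p M χ D) (c : ℕ) (hz : Pool.Agent.MAPW.CentreOut p c D) (E A : Type)
    [Group E] [Group A] [Finite E] (X : Extension G E A) (W C : Subgroup A) (s : A)
    (hW : Pool.Agent.MAPW.Adm X p M χ W C s) (U : Subgroup A) (hU : U ≤ W) :
    (C = W ⊓ Pool.Agent.BQ.AB X M χ → (p : ℤ) ^ c ∣ (Pool.Agent.MAPW.J2 (orderOf s) : ℤ) *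
      ∑ᶠ d : ℤ, ∑ᶠ V : {V : Subgroup A // V ⊓ W = U}, altSum X p M χ d V.1) ∧
    (¬ p ^ c ∣ Pool.Agent.MAPW.J2 (orderOf s) →
      (p : ℤ) ∣ ∑ᶠ d : ℤ, ∑ᶠ V : {V : Subgroup A // V ⊓ W = U}, altSum X p M χ d V.1) := by
  have hS : Setup p M := ⟨hpr, hM, hp⟩
  have : Fact p.Prime := ⟨hpr⟩
  obtain ⟨x, hx⟩ := Fin_defAt hS hχ hD
  obtain ⟨hc, z, hzD, hzc, hzn⟩ := hz
  obtain ⟨c, rfl⟩ : ∃ k, c = k + 1 := ⟨c - 1, by omega⟩
  rw [Nat.add_sub_cancel] at hzn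
  have hNL := Pool.Agent.BQ.All.AI_le_AB p M hM hp G E A X hG χ hχ
  have hNn := Pool.Agent.BQ.All.qNRM G E A X M χ hχ
  have hFx : Fx X p M χ (Pool.Agent.BQ.AI X M χ) := fun C hC ψ hψ hI =>
    Pool.Agent.BQ.All.qKEY G E A X p M hM hp χ hχ C hC ψ hψ hI
  have hL : ∀ (d : ℤ) (V : Subgroup A), ¬ V ≤ Pool.Agent.BQ.AB X M χ → altSum X p M χ d V = 0 := fun d V hV =>
    (Pool.Agent.BQ.All.qZRO G E A X p M hM hp χ hχ d V (fun h => hV h.2)).2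
  constructor
  · intro hC
    subst hC
    exact Y3B All.yYM1 All.yYFR All.yYJD Pool.Agent.TZ.All.zIMW Pool.Agent.DR.AllDI.iFNx p c M hS G E A X hG χ hχ _ _
      hNL hNn hFx hL D x hx z hzD hzc hzn W s hW.mem hW.gen hW.ord U hU
  · intro hJ
    exact All.yY2B p c M hS G E A X hG χ hχ _ _ hNL hNn hFx hL D x hx z hzD hzc hzn W C hW.le hW.ge hW.nor hW.idx s
      hW.mem hW.gen hW.ord hJ U hU

end Pool.Agent.TY
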