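import Mathlib
import Pool.Agent.helper12.TZ.SpecI
import Pool.Agent.helper58.DC.Spec2
import Pool.Agent.helper35.BQ.Defs

/-!
# Project ty (MP_baa4d7_al): divisibility of the alternating sums by powers of `p`. Definitions.

`Extension`, `altSum`, `kext`, `KE`, `Cocycle`, `tens` are those of `helper58/DC`, `cSum`, `gfun`, `Cov`, `ext0`, `trivE` those of
`helper81/DI/Defs.lean`, `Setup`, `InM`, `PEl` those of `helper83/GR`, `pp`, `aB` those of `helper12/OB/Defs.lean`, `DefAt` that of
`helper22/OB/SpecD`, `AI`, `AB` those of `helper35/BQ/Defs.lean`.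
-/

set_option autoImplicit false

namespace Pool.Agent.TY

open Pool.Agent.helper58.DC Pool.Agent.DI Pool.Agent.GR Pool.Agent.OB

/-- The data of the core theorem: `D` is a Sylow `p`-subgroup of `C_G(g)`, `omega_B(g)` is not in `M`, `g ^ m` is in `D` and
`(g ^ m) ^ (p ^ c)` is not in `[D, D]`. -/
structure Hy (p c m : ℕ) (M : Ideal (integralClosure ℤ ℂ)) {G : Type} [Group G] (χ : G → ℂ) (g : G)
    (D : Subgroup G) : Prop where
  irr : χ ∈ Irr G
  le : D ≤ Subgroup.centralizer {g}
  pgrp : IsPGroup p D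
  card : Nat.card D = pp p (Subgroup.centralizer ({g} : Set G))
  om : ¬ InM M (omega χ g)
  el : ∀ t : G, PEl p (t ^ m)
  mem : g ^ m ∈ D
  ne : (g ^ m) ^ (p ^ c) ∉ ⁅D, D⁆

/-- The cyclic group of order `p`, acting on itself. -/
abbrev Tp (p : ℕ) : Type := Multiplicative (ZMod p)

/-- the trivial cocycle -/
def c0 (p : ℕ) : Cocycle (Tp p) (Tp p) Unit where
  κ _ _ := ()
  mul _ _ _ := rfl

/-- The wreath product of `G` with the cyclic group of order `p`. -/
abbrev WG (p : ℕ) (G : Type) [Group G] : Type := KE (trivE G) (c0 p)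

/-- The extension `1 → G ^ p → WG p G → Tp p → 1`. -/
noncomputable abbrev WX (p : ℕ) (G : Type) [Group G] : Extension (Tp p → G) (WG p G) (Tp p) :=
  kext (trivE G) (c0 p)

/-- the diagonal element -/
def dg (p : ℕ) {G : Type} [Group G] (a : G) : WG p G := ⟨1, fun _ => a, fun _ => rfl⟩

/-- The wreath product of `D` with the cyclic group of order `p`. -/
def DW (p : ℕ) {G : Type} [Group G] (D : Subgroup G) : Subgroup (WG p G) where
  carrier := {x | ∀ t, x.f t ∈ D}
  mul_mem' := fun {a b} ha hb t => by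
    rw [KE.mul_f]
    exact D.mul_mem (ha _) (hb _)
  one_mem' := fun t => D.one_mem
  inv_mem' := fun {a} ha t => by
    rw [KE.inv_f]
    exact D.inv_mem (ha _)

/-- The subgroups `Q ≠ 1` of `E` which are `p`-groups and meet `G'` trivially. -/
def QQ (p : ℕ) {E : Type} [Group E] (G' : Subgroup E) : Set (Subgroup E) :=
  {Q | Q ≠ ⊥ ∧ IsPGroup p Q ∧ Q ⊓ G' = ⊥}

/-- The correction term for `Q`, summed over `d`. -/
noncomputable def TQ (p : ℕ) (M : Ideal (integralClosure ℤ ℂ)) {E : Type} [Group E] (G' : Subgroup E)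
    (τ : E → ℂ) (Q : Subgroup E) : ℤ :=
  ∑ᶠ d : ℤ, cSum p (G' ⊓ cz Q) ⊥ (cz Q) (gfun p M G' τ d)

/-- The sum over `d` of the alternating sums. -/
noncomputable def aS {G E A : Type} [Group G] [Group E] [Group A] (X : Extension G E A) (p : ℕ)
    (M : Ideal (integralClosure ℤ ℂ)) (χ : G → ℂ) (U : Subgroup A) : ℤ :=
  ∑ᶠ d : ℤ, altSum X p M χ d U

/-- `n ^ 2` times the product of the `1 - 1 / l ^ 2`, `l` the prime divisors of `n` (the number of the pairs which generate
a cyclic group of order `n`). -/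
noncomputable def J2 (n : ℕ) : ℕ :=
  ∏ l ∈ n.primeFactors, l ^ (2 * (n.factorization l - 1)) * (l ^ 2 - 1)

/-- The subgroup `N` of `A` fixes all the pairs `(C, ψ)` of the block of `χ` (up to conjugation in `G`). -/
def Fx {G E A : Type} [Group G] [Group E] [Group A] (X : Extension G E A) (p : ℕ)
    (M : Ideal (integralClosure ℤ ℂ)) (χ : G → ℂ) (N : Subgroup A) : Prop :=
  ∀ C : Finset (Subgroup G), IsRadical p C → ∀ ψ ∈ IrrOn (nrm C), Induces M ψ χ →
    N ≤ (X.stab C ψ).map X.proj

end Pool.Agent.TY
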