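import Mathlib
import Pool.Agent.helper12.TY.Defs

/-!
# Project ty (MP_baa4d7_al): divisibility of the alternating sums by powers of `p`

THEOREM. Let `p` be a prime, `O_p(G) = 1`, `B` a block with defect group `D`, `z ∈ Z(D)`, `z ^ (p ^ c) ∉ [D, D]`. Then
`p ^ (c + 1)` divides the alternating sum `aB` of the numbers `k(N_G(C), B)`; for an extension `E` of `G` with quotient `A`:
(1) for `K ≤ A` cyclic of order `n` prime to `p`, `p ^ (c + 1)` divides `J2 n` times the sum over `d` and `V ≥ K`;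
(2) `p` divides the sum over `d` and `V ⊓ W = U` if `W` is, modulo the group `A[B]` of Dade, cyclic-by-`p` (see Y2B).

IDEA for `E = G`. Induction on `c`, `c = 0` is UPV of project tz. Let `WG` be the wreath product of `G` with the cyclic group of order
`p`, and `b` a block of `WG` over the block `B ⊗ ... ⊗ B`. The hypothesis for `G` and `c + 1` implies the hypothesis for `WG`, `b` and `c`
(YHY), as the `p`-th power of `z` is what remains of the diagonal element in `D / [D, D]`. So `p ^ (c + 1)` divides `aB b` and `aB`. The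
relation YRL between the sums for a group `E` and a normal subgroup of index `p` (chains of `E`, A10 of project di), applied to
`WG` and `G ^ p`, is `p ∑_b aB b = a ^ p - a + p ^ 2 a - (corrections)`, `a = aB` (YWN), and the corrections are `p ^ 2` times sums for
blocks of `G` with the same hypothesis for `c` (YTQ, YHK). So `p ^ (c + 2)` divides `a`.

Rules as for project tz: row `ty:XX` is the theorem `XX : XX_stmt` in the file `Pool/Agent/<seat>/TY/XX.lean`, namespace
`Pool.Agent.TY`, `import Pool.Agent.helper12.TY.Spec`, with the same `open` line. Auxiliary lemmas get the prefix `XX_`. Other rows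
of this file, and rows of the projects dc (`Pool.Agent.helper58.DC`), di (`Pool.Agent.DI`), ob (`Pool.Agent.OB`), tz
(`Pool.Agent.TZ`), may be hypotheses `(hYY : YY_stmt)`; all of them are proved or will be.
-/

set_option autoImplicit false

namespace Pool.Agent.TY

open Pool.Agent.helper58.DC Pool.Agent.DI Pool.Agent.GR Pool.Agent.OB Pool.Agent.TZ

/-! ## A. A normal subgroup of index `p` -/

/-- **YDC** (short). Chains of a group with a normal subgroup of index `p`. Proof: `Γ / G'` is cyclic, so commutators are in `G'`. Write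
`T Q = cSum p ⊤ Q ⊤ g`. A10 with `L = ⊤`, `Q = ⊥`, `M = ⊤` (`nz ⊥ = ⊤`) gives
`T ⊥ = cSum p G' ⊥ ⊤ g - ∑_{Q ∈ QQ} T Q`. For `Q ∈ QQ`: by A3 and A9 `T Q = cSum p (cz Q) Q ⊤ g`; in A10 with `L = cz Q` the sum on the
right is empty, because a subgroup which meets `G'` trivially has at most `p` elements (it embeds in `Γ / G'`), so
`T Q = cSum p (cz Q ⊓ (Q ⊔ G')) Q ⊤ g`, and this is `cSum p (G' ⊓ cz Q) ⊥ (cz Q) g` by A11. Uses: A3, A9, A10, A11 of DI. -/
def YDC_stmt : Prop :=
  ∀ (Γ : Type) [Group Γ] [Finite Γ] (p : ℕ) [Fact p.Prime] (G' : Subgroup Γ) (g : Subgroup Γ → ℤ),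
    G'.Normal → G'.index = p →
    cSum p ⊤ ⊥ ⊤ g = cSum p G' ⊥ ⊤ g -
      ∑ᶠ Q ∈ QQ p G', cSum p (G' ⊓ cz Q) ⊥ (cz Q) g

/-- **YFS** (short). Finitely many `d`. Proof: there are finitely many chains, and for every subgroup `N` only finitely many `d` with
`gfun p M G' τ d N ≠ 0`: `IrrOn N` is finite (B2 of DI) and `Defect p N φ d` determines `d`. -/
def YFS_stmt : Prop :=
  ∀ (Γ : Type) [Group Γ] [Finite Γ] (p : ℕ) (M : Ideal (integralClosure ℤ ℂ)) (G' : Subgroup Γ)
    (τ : Γ → ℂ) (L P M' : Subgroup Γ), {d : ℤ | cSum p L P M' (gfun p M G' τ d) ≠ 0}.Finite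

/-- **YTQ** (medium; adapt `Pool/Agent/helper81/DI/D10.lean`). The correction term. Proof: let `K = X.inc.range ⊓ cz Q` and `Y = O_p(K)` (A2).
If `Y ≠ ⊥` all the `cSum` are `0` by A4, and `R = ∅`. If `Y = ⊥` take `E'`, `A'`, `Y'`, `ε` from D9 (`ε.i` is the inclusion of `K`);
`Nat.card Q * Nat.card A'` divides `p` and `Q ≠ ⊥`, so `Nat.card Q = p` and `A'` is trivial. By A7, A14, A8 (with `ε.i`, as in D10)
`cSum p K ⊥ (cz Q) (gfun ..)` is the left side of D4 for `Y'`, `M' = cz Q`, `q = p` and the representatives of the blocks of `K` (C15), and by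
D4 it is the sum over the representatives `b` with `Cov` (this is `R`) of `p ^ 2 * |K| * altSum Y' p M b (d - 1) ⊤`. Sum over `d` (FN of
DC, shift of `d`): `∑_d altSum Y' p M b d ⊤ = aB p M b` by TOA of OB (`⊤` is the only subgroup of `A'`). `CycQ` from B0 (`A` has prime
order). Uses: A2, A4, A7, A8, A14, B0, C15, D4, D9 of DI, FN of DC, TOA of OB. -/
def YTQ_stmt : Prop :=
  ∀ (G E A : Type) [Group G] [Group E] [Group A] [Finite G] [Finite E] (X : Extension G E A)
    (p : ℕ) [Fact p.Prime] (M : Ideal (integralClosure ℤ ℂ)), M.IsMaximal →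
    (p : integralClosure ℤ ℂ) ∈ M → Nat.card A = p → ∀ τ : E → ℂ, ∀ Q ∈ QQ p X.inc.range,
    ∃ R : Finset (↥(X.inc.range ⊓ cz Q) → ℂ),
      (∀ b ∈ R, b ∈ Irr ↥(X.inc.range ⊓ cz Q) ∧
        IsOp p (⊤ : Subgroup ↥(X.inc.range ⊓ cz Q)) ⊥ ∧
        Cov M X.inc.range τ (ext0 (X.inc.range ⊓ cz Q).subtype b)) ∧
      TQ p M X.inc.range τ Q =
        (p : ℤ) ^ 2 * ((Nat.card ↥(X.inc.range ⊓ cz Q) : ℤ) * ∑ b ∈ R, aB p M b)

/-- **YRL** (medium; adapt `Pool/Agent/helper70/TZ/IQR.lean`). The relation for a normal subgroup of index `p`. Proof: as IQR, but with YDC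
instead of A12, and `padicValNat p (Nat.card U)` is `0` or `1`: for every `d`, with `g = gfun p M X.inc.range τ d`,
`|E| ∑_{b ∈ R} altSum (trivE E) p M b d ⊤ = cSum p ⊤ ⊥ ⊤ g` (IQA, A7, A8), `= cSum p X.inc.range ⊥ ⊤ g - ∑_Q ...` (YDC; the index of
`X.inc.range` is `|A| = p`), and by A7, A14, A8, D4, D8, C10, C16, D0 the first term is
`|G| ∑_U |U| ^ 2 altSum X p M χ (d - padicValNat p (Nat.card U)) U`. The subgroups of `A` are `⊥` and `⊤`. Sum over `d` (finitely many
`d`: YFS, FN of DC; shift of `d`; exchange with the sum over `Q`); `∑_d altSum (trivE E) p M b d ⊤ = aB p M b` by TOA of OB; `|E| = |G| p`.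
Uses: YDC, YFS, IQA, A7, A8, A14, B0, C1, C10, C15, C16, D0, D4, D8 of DI, IM, FN of DC, TOA of OB. -/
def YRL_stmt : Prop :=
  ∀ (G E A : Type) [Group G] [Group E] [Group A] [Finite G] [Finite E] (X : Extension G E A)
    (p : ℕ) [Fact p.Prime] (M : Ideal (integralClosure ℤ ℂ)), M.IsMaximal →
    (p : integralClosure ℤ ℂ) ∈ M → Nat.card A = p → IsOp p (⊤ : Subgroup G) ⊥ →
    IsOp p (⊤ : Subgroup E) ⊥ → ∀ χ ∈ Irr G, Stable X M χ →
    ∃ R : Finset (E → ℂ), (∀ b ∈ R, b ∈ Irr E ∧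
        Cov M X.inc.range (omega (ext0 X.inc χ)) b) ∧
      (p : ℤ) * (Nat.card G : ℤ) * ∑ b ∈ R, aB p M b =
        (Nat.card G : ℤ) * (aS X p M χ ⊥ + (p : ℤ) ^ 2 * aS X p M χ ⊤) -
        ∑ᶠ Q ∈ QQ p X.inc.range, TQ p M X.inc.range (omega (ext0 X.inc χ)) Q

/-- **YOS** (short to medium). Sums over orbits. Proof: `G'` acts on `QQ p G'` by conjugation (`G'` is normal). The stabiliser of `Q` is
`G' ⊓ nz Q = G' ⊓ cz Q` (A9 of DI), so the orbit of `Q` has `|G'| / |G' ⊓ cz Q|` elements; `T` is constant on it, and the sum over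
the orbit is `(|G'| / |G' ⊓ cz Q|) * T Q`, a multiple of `N * |G'|`. Sum over the orbits. -/
def YOS_stmt : Prop :=
  ∀ (p : ℕ) [Fact p.Prime] (E : Type) [Group E] [Finite E] (G' : Subgroup E), G'.Normal →
    (∀ x y : E, x * y * x⁻¹ * y⁻¹ ∈ G') → ∀ (T : Subgroup E → ℤ) (N : ℤ),
    (∀ u ∈ G', ∀ Q ∈ QQ p G', T (Q.map (MulAut.conj u).toMonoidHom) = T Q) →
    (∀ Q ∈ QQ p G', N * (Nat.card ↥(G' ⊓ cz Q) : ℤ) ∣ T Q) →
    N * (Nat.card G' : ℤ) ∣ ∑ᶠ Q ∈ QQ p G', T Q

/-- **YCI** (short to medium). The correction terms are invariant. Proof: `cz (u Q u⁻¹) = u (cz Q) u⁻¹`, `G'` is normal; `C ↦ chainMap (conj u) C` is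
a bijection of the chains of `p`-subgroups of `L` with smallest term `⊥` and those of `u L u⁻¹`, `nrm (chainMap α C) = (nrm C).map α`
(NM of DC), `map` commutes with `⊓`; and `gfun p M G' τ d (u N u⁻¹) = gfun p M G' τ d N`, by the bijection
`φ ↦ funMap (MulAut.conj u) φ` (IF of DC; `Defect` depends on `|N|` and `φ 1`; `omega (funMap (MulAut.conj u) φ) = omega φ`, as the
sum over the conjugacy class of `g` is the same, see `omega_funMap` in `helper35/BQ/Defs.lean`, so `Cov` does not change). -/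
def YCI_stmt : Prop :=
  ∀ (p : ℕ) [Fact p.Prime] (M : Ideal (integralClosure ℤ ℂ)) (E : Type) [Group E] [Finite E]
    (G' : Subgroup E), G'.Normal → ∀ (τ : E → ℂ) (u : E) (Q : Subgroup E),
    TQ p M G' τ (Q.map (MulAut.conj u).toMonoidHom) = TQ p M G' τ Q

/-! ## B. The wreath product -/

/-- **YWF** (short to medium). Facts on the wreath product. Finiteness: SK of DC. For the last item: `IsOp p ⊤ ⊥` for `Tp p → G` is in PT of DC
(third item). Let `Q` be a `p`-subgroup of `WG p G` normalised by `⊤`. `Q ⊓ (WX p G).inc.range` is the image of a normal `p`-subgroup of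
`Tp p → G`, so it is `⊥`. So `Q` commutes with `(WX p G).inc.range` (commutators are in the intersection of two normal subgroups). Let
`q ∈ Q`, `l = q.l`, `f = q.f`: for all `x : Tp p → G` and all `t`, `f t * x t = x (l • t) * f t`. If `l ≠ 1` take
`x = Pi.mulSingle (l • 1) a` with `a ≠ 1` and `t = 1`: `x 1 = 1`, so `a = 1`, a contradiction. So `q` is in the range, `q = 1`. -/
def YWF_stmt : Prop :=
  ∀ (p : ℕ) [Fact p.Prime] (G : Type) [Group G] [Finite G],
    Finite (WG p G) ∧ Nat.card (Tp p) = p ∧ Nat.card (Tp p → G) = Nat.card G ^ p ∧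
    (Nontrivial G → IsOp p (⊤ : Subgroup G) ⊥ → IsOp p (⊤ : Subgroup (Tp p → G)) ⊥ ∧
      IsOp p (⊤ : Subgroup (WG p G)) ⊥)

/-- **YWS** (short). The block is stable. Proof: the first item is PT of DC. The second: SK of DC (second item) for `trivE G`, where
`funMap (MulAut.conj e) χ = χ` because `χ` is a class function (B1 of DI), and `Induces M χ χ` (IM). -/
def YWS_stmt : Prop :=
  ∀ (p : ℕ) [Fact p.Prime] (M : Ideal (integralClosure ℤ ℂ)) (G : Type) [Group G] [Finite G],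
    ∀ χ ∈ Irr G, (tens fun _ : Tp p => χ) ∈ Irr (Tp p → G) ∧ Stable (trivE G) M χ ∧
      Stable (WX p G) M (tens fun _ : Tp p => χ)

/-- **YWN** (medium). The numbers for the wreath product. Proof: let `S`, `cls` be as in CL0 for `trivE G`, `χ` (stable: YWS) and
`s = ∑_{z : S.Z} (-1) ^ S.len z`. By TOA of OB and CL1 `aB p M χ = ∑_d S.num d ⊤ = s` (`Unit` has one subgroup and one element).
Let `S'`, `cls'` be as in CL0 for `WX p G`. By CL1, PR (of DC) and IS `altSum (WX p G) p M _ d U = (pathS S (c0 p)).num d U`. By MB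
`num d ⊤ = fix d ⊤` and `num d ⊥ + num d ⊤ = fix d ⊥` (the subgroups of a group of prime order are `⊥` and `⊤`). By FX `fix d ⊤` is the sum
over the constant families `z` (the action of `Tp p` on itself is transitive, there is one orbit) with `∑ dfc = d` of
`(-1) ^ S.len (z 1)`; the sum over `d` is `s`. And `fix d ⊥` is the sum over all families `z : Tp p → S.Z` with `∑ dfc = d` of
`∏_t (-1) ^ S.len (z t)` (the orbits of `⊥` are the points); the sum over `d` is `s ^ p` (`Finset.prod_univ_sum`). All sums are finite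
(`S.fin`). Uses: YWF, YWS, CL0, CL1, PR, IS, MB, FX of DC, TOA of OB. -/
def YWN_stmt : Prop :=
  ∀ (p : ℕ) [Fact p.Prime] (M : Ideal (integralClosure ℤ ℂ)) (G : Type) [Group G] [Finite G],
    IsOp p (⊤ : Subgroup G) ⊥ → ∀ χ ∈ Irr G,
    aS (WX p G) p M (tens fun _ : Tp p => χ) ⊤ = aB p M χ ∧
    aS (WX p G) p M (tens fun _ : Tp p => χ) ⊥ + aS (WX p G) p M (tens fun _ : Tp p => χ) ⊤ =
      aB p M χ ^ p

/-- **YWO** (short to medium). The central character of the extended function. Proof: the conjugates of `dg p g` in `WG p G` are the `(WX p G).inc x`,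
`x t` conjugate to `g` for all `t` (conjugation by `(l, f)` gives `f t * g * (f t)⁻¹` at `l • t`), that is, the images of the
conjugates of `fun _ => g` in `Tp p → G`. So `omega (ext0 (WX p G).inc ψ) (dg p g) = omega ψ (fun _ => g)` for all `ψ` (the value at
`1` is the same), and `omega (tens fun _ => χ) (fun _ => g) = omega χ g ^ p` by OP of DC. The value at a conjugate is the same. -/
def YWO_stmt : Prop :=
  ∀ (p : ℕ) [Fact p.Prime] (G : Type) [Group G] [Finite G] (χ : G → ℂ) (g : G) (w : WG p G),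
    omega (ext0 (WX p G).inc (tens fun _ : Tp p => χ)) (w * dg p g * w⁻¹) = omega χ g ^ p

/-- **YHY** (medium). The hypothesis for the wreath product. Proof: `om`: by `Cov` (`dg p g = (WX p G).inc fun _ => g`) `omega b (dg p g)` is congruent to
`omega χ g ^ p` (YWO), and this is not `InM` (`omega χ g` is an algebraic integer, C3 of DI, `M` is prime; `InM.or`). `le`, `mem`: clear
(`dg p` is a homomorphism). `pgrp`, `card`: `|DW p D| = p |D| ^ p` (bijection `x ↦ (x.l, x.f)`), `C(dg p g)` consists of the `x` with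
`x.f t ∈ C_G(g)` for all `t`, so it has `p |C_G(g)| ^ p` elements and its `p`-part is `p (pp ..) ^ p`. `el`: for `u : WG p G`,
`(u ^ p).l = 1`, so `u ^ p = (WX p G).inc x`, and `(u ^ m) ^ p = (u ^ p) ^ m = (WX p G).inc (x ^ m)` is a `p`-element because every
`x t ^ m` is (finitely many `t`). `ne`: the map `x ↦ ∏_t [x.f t]` from `DW p D` to `D / ⁅D, D⁆` (abelianization of `D`) is a homomorphism
(reindex `t ↦ b.l • t`), so it is trivial on the commutators; at `(dg p g ^ m) ^ (p ^ c)` its value is the class of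
`((g ^ m) ^ (p ^ c)) ^ p = (g ^ m) ^ (p ^ (c + 1))`, which is not trivial (`⁅D, D⁆` is the image of the commutator subgroup of the group
`D`). Uses: YWO, C3 of DI, TI of DC. -/
def YHY_stmt : Prop :=
  ∀ (p c m : ℕ) [Fact p.Prime] (M : Ideal (integralClosure ℤ ℂ)), Setup p M →
    ∀ (G : Type) [Group G] [Finite G] (χ : G → ℂ) (g : G) (D : Subgroup G),
    Hy p (c + 1) m M χ g D → ∀ b ∈ Irr (WG p G),
    Cov M (WX p G).inc.range (omega (ext0 (WX p G).inc (tens fun _ : Tp p => χ))) b →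
    Hy p c m M b (dg p g) (DW p D)

/-- **YKQ** (medium). The complements. Proof: `Q` embeds in `Tp p` by `q ↦ q.l` (kernel `Q ⊓ (WX p G).inc.range = ⊥`), so, `p` being prime and
`Q ≠ ⊥`, for every `s : Tp p` there is exactly one `q_s ∈ Q` with `q_s.l = s`, and `q_(r s) = q_r q_s`. Let `u s = q_s.f 1` and
`w = (WX p G).inc u`. From `(q_r q_s).f 1 = q_r.f (s • 1) * q_s.f 1` we get `u (r s) = q_r.f s * u s`. Let `x = (WX p G).inc F`. It commutes
with `q_r` iff `F (r • t) * q_r.f t = q_r.f t * F t` for all `t`. If this holds for all `r` then (for `t = 1`)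
`F r = u r * F 1 * (u r)⁻¹`, so `x = w * dg p (F 1) * w⁻¹`. Conversely, if `F s = u s * a * (u s)⁻¹` for all `s` then
`F (r t) = q_r.f t * (u t * a * (u t)⁻¹) * (q_r.f t)⁻¹`. -/
def YKQ_stmt : Prop :=
  ∀ (p : ℕ) [Fact p.Prime] (G : Type) [Group G] [Finite G] (Q : Subgroup (WG p G)), Q ≠ ⊥ →
    Q ⊓ (WX p G).inc.range = ⊥ →
    ∃ w ∈ (WX p G).inc.range, ∀ x : WG p G, x ∈ (WX p G).inc.range ⊓ cz Q ↔
      ∃ a : G, x = w * dg p a * w⁻¹

/-- **YTA** (short to medium). Transport of `aB` along an isomorphism. Proof: the image under `e` of radical chains, of `nrm`, of the functions in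
`IrrOn` (IRT of DC; or B13 of DI for `i = e`), of `Induces` (the class sums correspond), of the classes of chains. Or: by TOA of OB and
D1 of DI `|G| aB` is the sum over all radical chains `C` of `(-1) ^ (C.card + 1) * |nrm C|` times the number of the admissible
characters, and the bijection of the radical chains is A8 of DI with `i = e`. -/
def YTA_stmt : Prop :=
  ∀ (H K : Type) [Group H] [Group K] [Finite H] [Finite K] (e : H ≃* K) (p : ℕ) [Fact p.Prime]
    (M : Ideal (integralClosure ℤ ℂ)) (b : K → ℂ), aB p M (fun h => b (e h)) = aB p M b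

/-- **YHK** (medium). The correction terms of the wreath product. Proof: let `K = (WX p G).inc.range ⊓ cz Q` and `w` as in YKQ. The map
`e : G ≃* K`, `a ↦ w * dg p a * w⁻¹`, is an isomorphism (`dg p` is an injective homomorphism). Let `χ' a = b (e a)`. `χ' ∈ Irr G` by IRT of DC,
`aB p M χ' = aB p M b` by YTA. Only `om` is to be shown for `Hy p c m M χ' g D` (the other items are those of the hypothesis).
`omega χ' g = omega b (e g)`, and this is `omega (ext0 K.subtype b) (w * dg p g * w⁻¹)`: an element `w * dg p a * w⁻¹` of `K` is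
conjugate to `w * dg p g * w⁻¹` in `WG p G` iff `dg p a` is conjugate to `dg p g`, iff `a` is conjugate to `g` in `G`. By `Cov` it is
congruent modulo `M` to the value of YWO, `omega χ g ^ p`, which is not `InM`. The last item: `IsOp` is transported by `e`.
Uses: YKQ, YTA, YWO, IRT, OI of DC. -/
def YHK_stmt : Prop :=
  ∀ (p c m : ℕ) [Fact p.Prime] (M : Ideal (integralClosure ℤ ℂ)), Setup p M →
    ∀ (G : Type) [Group G] [Finite G] (χ : G → ℂ) (g : G) (D : Subgroup G), Hy p c m M χ g D →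
    ∀ Q : Subgroup (WG p G), Q ≠ ⊥ → Q ⊓ (WX p G).inc.range = ⊥ →
    ∀ b ∈ Irr ↥((WX p G).inc.range ⊓ cz Q),
    Cov M (WX p G).inc.range (omega (ext0 (WX p G).inc (tens fun _ : Tp p => χ)))
      (ext0 ((WX p G).inc.range ⊓ cz Q).subtype b) →
    ∃ χ' : G → ℂ, Hy p c m M χ' g D ∧ aB p M χ' = aB p M b

/-- The core theorem for `c`. -/
def UPc (c : ℕ) : Prop :=
  ∀ (p m : ℕ) [Fact p.Prime] (M : Ideal (integralClosure ℤ ℂ)), Setup p M →
    ∀ (G : Type) [Group G] [Finite G], IsOp p (⊤ : Subgroup G) ⊥ →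
    ∀ (χ : G → ℂ) (g : G) (D : Subgroup G), Hy p c m M χ g D → (p : ℤ) ^ (c + 1) ∣ aB p M χ

/-- **YST** (medium). The induction step. Proof: let `Hy p (c + 1) m M χ g D`, `a = aB p M χ`, `k = c + 1`. `Hy p c m M χ g D` holds as well (otherwise
`(g ^ m) ^ (p ^ (c + 1))`, a power of `(g ^ m) ^ (p ^ c)`, is in `⁅D, D⁆`), so `p ^ k ∣ a`; `G` is nontrivial. Apply YRL to `WX p G` and
`tens fun _ => χ` (YWF, YWS): `p |G| ^ p ∑_{b ∈ R} aB b = |G| ^ p (S₁ + p ^ 2 a) - ∑_Q T Q`, with `S₁ = a ^ p - a` (YWN),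
`T = TQ p M (WX p G).inc.range τ`, `τ = omega (ext0 (WX p G).inc (tens fun _ => χ))`. Every `b ∈ R` satisfies `Hy p c m M b (dg p g) (DW p D)`
(YHY), so `p ^ k ∣ aB b` by the hypothesis for the group `WG p G`. For `Q ∈ QQ` take `R'` from YTQ: every `b' ∈ R'` is as in YHK, so
`p ^ k ∣ aB b'` (hypothesis for the group `G`), and `T Q` is a multiple of `p ^ (k + 2) * |K|`. By YOS (with YCI; commutators are in
`(WX p G).inc.range`, whose quotient is isomorphic to `Tp p`) `∑_Q T Q` is a multiple of `p ^ (k + 2) |G| ^ p`. Divide by `|G| ^ p`: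
`a = a ^ p + p ^ 2 a - p ∑ aB b - p ^ (k + 2) t`, and `p ^ (k + 1)` divides every term (`p k ≥ k + 1`).
Uses: YRL, YTQ, YOS, YCI, YWF, YWS, YWN, YHY, YHK. -/
def YST_stmt : Prop := ∀ c : ℕ, UPc c → UPc (c + 1)

/-- **YUP** (short). The core theorem. Proof: induction on `c`; `c = 0` is UPV of TZ (`Pool/Agent/helper12/TZ/Spec.lean`; `p ^ 0 = 1`), the step is
YST. -/
def YUP_stmt : Prop := ∀ c : ℕ, UPc c

/-! ## C. Extensions -/

/-- **YIC** (medium; adapt `Pool/Agent/helper56/TZ/ICV.lean`). The blocks of `E` over `B`. Proof: as ICV, with YUP (for the group `E`) instead of UPV.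
The only new point: `(X.inc (z ^ m)) ^ (p ^ c)` is not in `⁅D', D'⁆ = (⁅D, D⁆).map X.inc`, because `z ^ (p ^ c)` is a power of
`(z ^ m) ^ (p ^ c)`. -/
def YIC_stmt : Prop :=
  ∀ (p c : ℕ) (M : Ideal (integralClosure ℤ ℂ)), Setup p M → ∀ (G E A : Type) [Group G] [Group E]
    [Group A] [Finite G] [Finite E] (X : Extension G E A), ¬ p ∣ Nat.card A →
    IsOp p (⊤ : Subgroup G) ⊥ → ∀ χ ∈ Irr G, Stable X M χ → ∀ (D : Subgroup G) (x : G),
    DefAt p M χ D x → ∀ z ∈ D, (∀ d ∈ D, z * d = d * z) → z ^ (p ^ c) ∉ ⁅D, D⁆ →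
    ∀ b ∈ Irr E, Cov M X.inc.range (omega (ext0 X.inc χ)) b → (p : ℤ) ^ (c + 1) ∣ aB p M b

/-- **YIR** (short). Proof: as IRL (`Pool/Agent/helper56/TZ/IRL.lean`): sum the relation IQR over `d` (FN of DC), `∑_d altSum (trivE E) p M b d ⊤ = aB b`
(TOA of OB), and YIC. -/
def YIR_stmt : Prop :=
  ∀ (p c : ℕ) (M : Ideal (integralClosure ℤ ℂ)), Setup p M → ∀ (G E A : Type) [Group G] [Group E]
    [Group A] [Finite G] [Finite E] (X : Extension G E A), IsCyclic A → ¬ p ∣ Nat.card A →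
    IsOp p (⊤ : Subgroup G) ⊥ → ∀ χ ∈ Irr G, Stable X M χ → ∀ (D : Subgroup G) (x : G),
    DefAt p M χ D x → ∀ z ∈ D, (∀ d ∈ D, z * d = d * z) → z ^ (p ^ c) ∉ ⁅D, D⁆ →
    (p : ℤ) ^ (c + 1) ∣ ∑ᶠ U : Subgroup A, (Nat.card U : ℤ) ^ 2 * aS X p M χ U

/-- **YCM** (short). Combinatorics. Proof: `|U| ^ 2` is the number of the pairs `(x, y)` with `x, y ∈ U`, that is,
`closure {x, y} ≤ U`; exchange the sums and group the pairs by `closure {x, y}`. -/
def YCM_stmt : Prop :=
  ∀ (A : Type) [Group A] [Finite A] (S : Subgroup A → ℤ),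
    ∑ᶠ U : Subgroup A, (Nat.card U : ℤ) ^ 2 * S U =
      ∑ᶠ U : Subgroup A, (Nat.card {x : A × A // Subgroup.closure {x.1, x.2} = U} : ℤ) *
        ∑ᶠ V : {V : Subgroup A // U ≤ V}, S V.1

/-- **YJ1** (medium). The number of the pairs which generate a cyclic group. Proof: pairs in `A` which generate `U` are the pairs in the group `U` which
generate it; let `U` be cyclic of order `n` and `N n` their number (it depends only on `n`). Every pair generates a subgroup, and there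
is one for every divisor of `n`, so `∑_{d ∣ n} N d = n ^ 2`. And `∑_{d ∣ n} J2 d = n ^ 2`: `J2` is multiplicative, and for `n = l ^ k` the
sum is `1 + ∑_{j = 1}^k l ^ (2 (j - 1)) (l ^ 2 - 1) = l ^ (2 k)`. So `N = J2` by strong induction. (Or directly, compare
`Pool/Agent/helper63/TZ/IJN.lean`.) -/
def YJ1_stmt : Prop :=
  ∀ (A : Type) [Group A] [Finite A] (U : Subgroup A), IsCyclic U →
    Nat.card {x : A × A // Subgroup.closure {x.1, x.2} = U} = J2 (Nat.card U)

/-- **YJD** (short). Proof: `a.primeFactors ⊆ b.primeFactors`, `a.factorization l ≤ b.factorization l`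
(`Finset.prod_dvd_prod_of_dvd`, `Finset.prod_dvd_prod_of_subset`). -/
def YJD_stmt : Prop := ∀ a b : ℕ, b ≠ 0 → a ∣ b → J2 a ∣ J2 b

/-- **YJC** (short to medium). `A` cyclic of order prime to `p`. Proof: strong induction on `|A|`, for all `X`. If the block is not stable
`aS X p M χ ⊤ = 0` (ST of DC). Otherwise by YIR and YCM `p ^ (c + 1)` divides `∑_U N U * F U`, `F U` the sum of the `aS X p M χ V`,
`V ≥ U`, `N U = J2 (Nat.card U)` (YJ1; subgroups of `A` are cyclic). For `U ≠ ⊤`, `F U = aS (resE X U) p M χ ⊤` (RE, FN of DC), and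
`p ^ (c + 1)` divides `N U * F U` by induction (`U` is cyclic and smaller). `F ⊤ = aS X p M χ ⊤`. Uses: YIR, YCM, YJ1, RE, ST, FN of DC. -/
def YJC_stmt : Prop :=
  ∀ (p c : ℕ) (M : Ideal (integralClosure ℤ ℂ)), Setup p M → ∀ (G E A : Type) [Group G] [Group E]
    [Group A] [Finite G] [Finite E] (X : Extension G E A), IsCyclic A → ¬ p ∣ Nat.card A →
    IsOp p (⊤ : Subgroup G) ⊥ → ∀ χ ∈ Irr G, ∀ (D : Subgroup G) (x : G),
    DefAt p M χ D x → ∀ z ∈ D, (∀ d ∈ D, z * d = d * z) → z ^ (p ^ c) ∉ ⁅D, D⁆ →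
    (p : ℤ) ^ (c + 1) ∣ (J2 (Nat.card A) : ℤ) * aS X p M χ ⊤

/-- **YM1** (short). Part (1) of the theorem. Proof: YJC for `resE X K`, RE and FN of DC (exchange of the finite sums over `d` and `V`). -/
def YM1_stmt : Prop :=
  ∀ (p c : ℕ) (M : Ideal (integralClosure ℤ ℂ)), Setup p M → ∀ (G E A : Type) [Group G] [Group E]
    [Group A] [Finite G] [Finite E] (X : Extension G E A) (K : Subgroup A), IsCyclic K →
    ¬ p ∣ Nat.card K → IsOp p (⊤ : Subgroup G) ⊥ → ∀ χ ∈ Irr G, ∀ (D : Subgroup G) (x : G),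
    DefAt p M χ D x → ∀ z ∈ D, (∀ d ∈ D, z * d = d * z) → z ^ (p ^ c) ∉ ⁅D, D⁆ →
    (p : ℤ) ^ (c + 1) ∣ (J2 (Nat.card K) : ℤ) *
      ∑ᶠ V : {V : Subgroup A // K ≤ V}, aS X p M χ V.1

/-- **YFR** (short). Subgroups which fix all pairs. Proof: first item: an element `e` of `X.stab C ψ` with `X.proj e ∈ U` is in `(resE X U).stab C ψ`
(compare the proof of RE of DC). Second item: a `ψ` counted by `kC X p M χ d V C` has `(X.stab C ψ).map X.proj = V`, so `N ≤ V`; so all
`kC` and the alternating sum are `0` (every representative `c.out.1` is radical). -/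
def YFR_stmt : Prop :=
  ∀ (G E A : Type) [Group G] [Group E] [Group A] [Finite G] [Finite E] (X : Extension G E A)
    (p : ℕ) (M : Ideal (integralClosure ℤ ℂ)) (χ : G → ℂ) (N : Subgroup A), Fx X p M χ N →
    (∀ U : Subgroup A, Fx (resE X U) p M χ (N.subgroupOf U)) ∧
    ∀ (d : ℤ) (V : Subgroup A), ¬ N ≤ V → altSum X p M χ d V = 0

/-- **Y2A** (short to medium). Proof: if the block is not stable `aS X p M χ ⊤ = 0` (ST of DC). Otherwise by IPG of TZ `aS X p M χ ⊤` is congruent modulo `p` to the sum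
of the `aS X p M χ V`, `V ≥ C` (exchange of finite sums, FN of DC). If `aS X p M χ V ≠ 0` then `N ≤ V` (YFR), so `C ≤ V` iff
`zpowers s ≤ V`; so it is the sum over the `V ≥ zpowers s`, and by YM1 `p ^ (c + 1)` divides its product with `J2 (orderOf s)`
(`Nat.card (zpowers s) = orderOf s`). As `p ^ (c + 1)` does not divide `J2 (orderOf s)` the sum is divisible by `p`. -/
def Y2A_stmt : Prop :=
  ∀ (p c : ℕ) (M : Ideal (integralClosure ℤ ℂ)), Setup p M → ∀ (G E A : Type) [Group G] [Group E]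
    [Group A] [Finite G] [Finite E] (X : Extension G E A) (C N : Subgroup A) [C.Normal],
    (∃ k : ℕ, C.index = p ^ k) → ∀ s ∈ C, C ≤ Subgroup.zpowers s ⊔ N → ¬ p ∣ orderOf s →
    ¬ p ^ (c + 1) ∣ J2 (orderOf s) → IsOp p (⊤ : Subgroup G) ⊥ → ∀ χ ∈ Irr G, Fx X p M χ N →
    ∀ (D : Subgroup G) (x : G), DefAt p M χ D x → ∀ z ∈ D, (∀ d ∈ D, z * d = d * z) →
    z ^ (p ^ c) ∉ ⁅D, D⁆ → (p : ℤ) ∣ aS X p M χ ⊤

/-- **Y2B** (medium). Part (2) of the theorem. Proof: by IMW of TZ with `T V = aS X p M χ V` (exchange the sums over `d` and `V`: FN of DC, `Uni_swap` in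
`Pool/Agent/helper22/OB/Uni.lean`) it is enough that for all `U ≤ W` the sum of the `T V`, `V ≥ U`, is divisible by `p`. If `¬ U ≤ L` all
the `T V` are `0`. Let `U ≤ L` and `U' = U ⊔ (W ⊓ N)`, so `U' ≤ W ⊓ L`. If `T V ≠ 0` then `N ≤ V` (YFR), so the sum is the sum over the
`V ≥ U'`, and by RE of DC it is `aS (resE X U') p M χ ⊤`. Apply Y2A to `resE X U'`, `C' = C.subgroupOf U'`, `N' = N.subgroupOf U'`
(`Fx`: YFR): `C'` is normal, its index `C.relIndex U'` divides `C.relIndex (W ⊓ L)` (`U' / (U' ⊓ C)` embeds in `(W ⊓ L) / C`, as in IFN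
of TZ, `Pool/Agent/helper23/TZ/IFN.lean`). The subgroup `zpowers s ⊓ U'` is cyclic, generated by `s'`; `orderOf s'` divides `orderOf s`,
so `J2 (orderOf s')` divides `J2 (orderOf s)` (YJD). `C ⊓ U' ≤ zpowers s' ⊔ (W ⊓ N)`: an element of `C` is `s ^ i * n` with
`n ∈ W ⊓ N` (`W ⊓ N` is normalised by `s ∈ C ≤ W ⊓ L`: `Subgroup.mul_mem`, `Subgroup.normal_mul` or `sup_induction`), and if it is in
`U'` then `s ^ i ∈ U'`. Uses: Y2A, YFR, YJD, IMW of TZ, RE, FN of DC. -/
def Y2B_stmt : Prop :=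
  ∀ (p c : ℕ) (M : Ideal (integralClosure ℤ ℂ)), Setup p M → ∀ (G E A : Type) [Group G] [Group E]
    [Group A] [Finite G] [Finite E] (X : Extension G E A), IsOp p (⊤ : Subgroup G) ⊥ →
    ∀ χ ∈ Irr G, ∀ L N : Subgroup A, N ≤ L → (∀ v ∈ L, ∀ w ∈ N, v * w * v⁻¹ ∈ N) →
    Fx X p M χ N → (∀ (d : ℤ) (V : Subgroup A), ¬ V ≤ L → altSum X p M χ d V = 0) →
    ∀ (D : Subgroup G) (x : G), DefAt p M χ D x → ∀ z ∈ D, (∀ d ∈ D, z * d = d * z) →
    z ^ (p ^ c) ∉ ⁅D, D⁆ → ∀ W C : Subgroup A, C ≤ W ⊓ L → W ⊓ N ≤ C →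
    (∀ w ∈ W ⊓ L, ∀ y ∈ C, w * y * w⁻¹ ∈ C) → (∃ k : ℕ, C.relIndex (W ⊓ L) = p ^ k) →
    ∀ s ∈ C, C ≤ Subgroup.zpowers s ⊔ (W ⊓ N) → ¬ p ∣ orderOf s →
    ¬ p ^ (c + 1) ∣ J2 (orderOf s) → ∀ U ≤ W,
    (p : ℤ) ∣ ∑ᶠ d : ℤ, ∑ᶠ V : {V : Subgroup A // V ⊓ W = U}, altSum X p M χ d V.1

end Pool.Agent.TY
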