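import Pool.Agent.helper12.TY.Spec

/-!
# Project ty (MP_baa4d7_al): the sums over the subgroups of the quotient with a given intersection with `W`, modulo `p ^ (c + 1)`
-/

set_option autoImplicit false

namespace Pool.Agent.TY

open Pool.Agent.helper58.DC Pool.Agent.DI Pool.Agent.GR Pool.Agent.OB Pool.Agent.TZ

theorem Y3B_swap {ι : Type} [Finite ι] (f : ℤ → ι → ℤ) (hf : ∀ i, {d | f d i ≠ 0}.Finite) :
    ∑ᶠ d, ∑ᶠ i, f d i = ∑ᶠ i, ∑ᶠ d, f d i := by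
  have : Fintype ι := Fintype.ofFinite ι
  have h1 : ∀ d, ∑ᶠ i, f d i = ∑ i, f d i := fun d => finsum_eq_sum_of_fintype _
  have h2 : ∑ᶠ i, ∑ᶠ d, f d i = ∑ i, ∑ᶠ d, f d i := finsum_eq_sum_of_fintype _
  rw [finsum_congr h1, h2]
  exact finsum_sum_comm Finset.univ (fun d i => f d i) (fun i _ => hf i)

theorem Y3B_congr {A : Type} [Group A] (T : Subgroup A → ℤ) (Q Q' : Subgroup A → Prop)
    (h : ∀ V, T V ≠ 0 → (Q V ↔ Q' V)) :
    ∑ᶠ V : {V : Subgroup A // Q V}, T V.1 = ∑ᶠ V : {V : Subgroup A // Q' V}, T V.1 := by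
  have e1 : ∑ᶠ V : {V : Subgroup A // Q V}, T V.1 = ∑ᶠ (V : Subgroup A) (_ : Q V), T V :=
    finsum_subtype_eq_finsum_cond (f := T) Q
  have e2 : ∑ᶠ V : {V : Subgroup A // Q' V}, T V.1 = ∑ᶠ (V : Subgroup A) (_ : Q' V), T V :=
    finsum_subtype_eq_finsum_cond (f := T) Q'
  rw [e1, e2]
  apply finsum_congr
  intro V
  by_cases hV : T V = 0
  · simp [hV]
  · have h1 := h V hV
    by_cases hQ : Q V
    · have hQ' := h1.1 hQ
      simp [hQ, hQ']
    · have hQ' : ¬ Q' V := fun h2 => hQ (h1.2 h2)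
      simp [hQ, hQ']

open scoped Pointwise in
theorem Y3B_sup {A : Type} [Group A] (K : Subgroup A) (s y : A) (h1 : ∀ k ∈ K, s * k * s⁻¹ ∈ K)
    (h2 : ∀ k ∈ K, s⁻¹ * k * s ∈ K) (hy : y ∈ Subgroup.zpowers s ⊔ K) :
    ∃ a ∈ Subgroup.zpowers s, ∃ n ∈ K, y = a * n := by
  have hle : Subgroup.zpowers s ≤ Subgroup.normalizer (K : Set A) := by
    rw [Subgroup.zpowers_le, Subgroup.mem_normalizer_iff]
    intro k
    constructor
    · intro hk
      exact h1 k hk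
    · intro hk
      have h3 := h2 _ hk
      have h4 : s⁻¹ * (s * k * s⁻¹) * s = k := by group
      rwa [h4] at h3
  have h5 := Subgroup.coe_mul_of_left_le_normalizer_right (Subgroup.zpowers s) K hle
  have h6 : y ∈ ((Subgroup.zpowers s : Set A) * (K : Set A)) := by
    rw [← h5]
    exact hy
  obtain ⟨a, ha, n, hn, hy⟩ := Set.mem_mul.1 h6
  exact ⟨a, ha, n, hn, hy.symm⟩

/-- The subgroup `W ⊓ L` is generated by `s` and `W ⊓ N`. -/
theorem Y3B (hYM1 : YM1_stmt) (hYFR : YFR_stmt) (hYJD : YJD_stmt) (hIMW : Pool.Agent.TZ.IMW_stmt)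
    (hFN : FN_stmt) (p c : ℕ) (M : Ideal (integralClosure ℤ ℂ)) (hS : Setup p M) (G E A : Type)
    [Group G] [Group E] [Group A] [Finite G] [Finite E] (X : Extension G E A)
    (hO : IsOp p (⊤ : Subgroup G) ⊥) (χ : G → ℂ) (hχ : χ ∈ Irr G) (L N : Subgroup A) (hNL : N ≤ L)
    (hNn : ∀ v ∈ L, ∀ w ∈ N, v * w * v⁻¹ ∈ N) (hFx : Fx X p M χ N)
    (hL : ∀ (d : ℤ) (V : Subgroup A), ¬ V ≤ L → altSum X p M χ d V = 0) (D : Subgroup G) (x : G)
    (hD : DefAt p M χ D x) (z : G) (hz : z ∈ D) (hzc : ∀ d ∈ D, z * d = d * z)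
    (hzn : z ^ (p ^ c) ∉ ⁅D, D⁆) (W : Subgroup A) (s : A) (hs : s ∈ W ⊓ L)
    (hCs : W ⊓ L ≤ Subgroup.zpowers s ⊔ (W ⊓ N)) (hps : ¬ p ∣ orderOf s) (U : Subgroup A) (hU : U ≤ W) :
    (p : ℤ) ^ (c + 1) ∣ (J2 (orderOf s) : ℤ) *
      ∑ᶠ d : ℤ, ∑ᶠ V : {V : Subgroup A // V ⊓ W = U}, altSum X p M χ d V.1 := by
  have hA : Finite A := Finite.of_surjective X.proj X.proj_surjective
  have hfin : ∀ V : Subgroup A, {d : ℤ | altSum X p M χ d V ≠ 0}.Finite := hFN G E A X p M χ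
  rw [Y3B_swap (fun d (V : {V : Subgroup A // V ⊓ W = U}) => altSum X p M χ d V.1) (fun V => hfin V.1)]
  have hmul : ∀ Q : Subgroup A → Prop, (J2 (orderOf s) : ℤ) * ∑ᶠ V : {V : Subgroup A // Q V},
      ∑ᶠ d : ℤ, altSum X p M χ d V.1 = ∑ᶠ V : {V : Subgroup A // Q V},
      ((J2 (orderOf s) : ℤ) * aS X p M χ V.1) := fun Q =>
    mul_finsum (fun V : {V : Subgroup A // Q V} => ∑ᶠ d : ℤ, altSum X p M χ d V.1) (J2 (orderOf s) : ℤ)
  rw [hmul]
  have hcast : (p : ℤ) ^ (c + 1) = ((p ^ (c + 1) : ℕ) : ℤ) := by push_cast; rfl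
  rw [hcast]
  refine hIMW (p ^ (c + 1)) A (fun V => (J2 (orderOf s) : ℤ) * aS X p M χ V) W ?_ U hU
  intro U0 hU0
  show ((p ^ (c + 1) : ℕ) : ℤ) ∣ ∑ᶠ V : {V : Subgroup A // U0 ≤ V}, (J2 (orderOf s) : ℤ) * aS X p M χ V.1
  rw [← hcast, ← hmul (fun V => U0 ≤ V)]
  by_cases hUL : U0 ≤ L
  swap
  · have h0 : ∀ V : {V : Subgroup A // U0 ≤ V}, ∑ᶠ d : ℤ, altSum X p M χ d V.1 = 0 := by
      intro V
      have h1 : ∀ d : ℤ, altSum X p M χ d V.1 = 0 := fun d => hL d V.1 (fun h2 => hUL (V.2.trans h2))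
      rw [finsum_congr h1, finsum_zero]
    rw [finsum_congr h0, finsum_zero, mul_zero]
    exact dvd_zero _
  have hFr := hYFR G E A X p M χ N hFx
  let U' : Subgroup A := U0 ⊔ (W ⊓ N)
  have hU'W : U' ≤ W ⊓ L :=
    sup_le (le_inf hU0 hUL) (le_inf inf_le_left (inf_le_right.trans hNL))
  have hsW : s ∈ W := hs.1
  have hsL : s ∈ L := hs.2
  -- the generator of `zpowers s ⊓ U'`
  let Z : Subgroup U' := (Subgroup.zpowers s).subgroupOf U'
  let f : Z →* Subgroup.zpowers s :=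
    { toFun := fun c => ⟨c.1.1, c.2⟩
      map_one' := rfl
      map_mul' := fun _ _ => rfl }
  have hf : Function.Injective f := by
    intro a b hab
    apply Subtype.ext
    apply Subtype.ext
    exact congrArg (fun c : Subgroup.zpowers s => c.1) hab
  have hcyc : IsCyclic Z := isCyclic_of_injective f hf
  obtain ⟨g, hg⟩ := hcyc.exists_generator
  have hg1 : (g.1 : A) ∈ Subgroup.zpowers s := g.2
  have hZ : ∀ y : U', (y : A) ∈ Subgroup.zpowers s → (y : A) ∈ Subgroup.zpowers (g.1 : A) := by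
    intro y hy
    obtain ⟨k, hk⟩ := Subgroup.mem_zpowers_iff.1 (hg ⟨y, hy⟩)
    rw [Subgroup.mem_zpowers_iff]
    refine ⟨k, ?_⟩
    have h4 := congrArg (fun c : Z => ((c : U') : A)) hk
    exact h4
  have hord : orderOf (g.1 : A) ∣ orderOf s := orderOf_dvd_of_mem_zpowers hg1
  have hnV : ∀ V : Subgroup A, ∑ᶠ d : ℤ, altSum X p M χ d V ≠ 0 → N ≤ V := by
    intro V hV
    by_contra h2
    apply hV
    have h3 : ∀ d : ℤ, altSum X p M χ d V = 0 := fun d => hFr.2 d V h2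
    rw [finsum_congr h3, finsum_zero]
  have e0 : ∑ᶠ V : {V : Subgroup A // U0 ≤ V}, ∑ᶠ d : ℤ, altSum X p M χ d V.1 =
      ∑ᶠ V : {V : Subgroup A // Subgroup.zpowers (g.1 : A) ≤ V}, ∑ᶠ d : ℤ, altSum X p M χ d V.1 := by
    apply Y3B_congr (fun V => ∑ᶠ d : ℤ, altSum X p M χ d V) (fun V => U0 ≤ V)
      (fun V => Subgroup.zpowers (g.1 : A) ≤ V)
    intro V hV
    have hNV := hnV V hV
    constructor
    · intro h1
      rw [Subgroup.zpowers_le]
      exact (sup_le h1 (inf_le_right.trans hNV) : U' ≤ V) g.1.2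
    · intro h1 y hy
      have hyU : y ∈ U' := (le_sup_left : U0 ≤ U') hy
      obtain ⟨a, ha, n, hn, hyan⟩ := Y3B_sup (W ⊓ N) s y
        (fun k hk => ⟨W.mul_mem (W.mul_mem hsW hk.1) (W.inv_mem hsW), hNn s hsL k hk.2⟩)
        (fun k hk => ⟨W.mul_mem (W.mul_mem (W.inv_mem hsW) hk.1) hsW, by
          have h4 := hNn s⁻¹ (L.inv_mem hsL) k hk.2
          rwa [inv_inv] at h4⟩) (hCs (hU'W hyU))
      have hnU : n ∈ U' := (le_sup_right : W ⊓ N ≤ U') hn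
      have haU : a ∈ U' := by
        have h4 : a = y * n⁻¹ := by rw [hyan]; group
        rw [h4]
        exact U'.mul_mem hyU (U'.inv_mem hnU)
      rw [hyan]
      exact V.mul_mem (h1 (hZ ⟨a, haU⟩ ha)) (hNV hn.2)
  rw [e0]
  have hZc : IsCyclic (Subgroup.zpowers (g.1 : A)) := inferInstance
  have h5 := hYM1 p c M hS G E A X (Subgroup.zpowers (g.1 : A)) hZc (by
    rw [Nat.card_zpowers]
    exact fun h => hps (h.trans hord)) hO χ hχ D x hD z hz hzc hzn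
  rw [Nat.card_zpowers] at h5
  have h6 : ((J2 (orderOf (g.1 : A)) : ℕ) : ℤ) ∣ (J2 (orderOf s) : ℤ) :=
    Int.natCast_dvd_natCast.2 (hYJD _ _ (orderOf_pos s).ne' hord)
  exact h5.trans (mul_dvd_mul_right h6 _)

end Pool.Agent.TY
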