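import Pool.Agent.helper12.TZ.All
import Pool.Agent.helper58.DC.All4
import Pool.Agent.helper35.BQ.All
import Pool.Agent.helper12.TY.Y3B
import Pool.Agent.helper2.TY.Y2B
import Pool.Agent.helper3.TY.YWF
import Pool.Agent.helper8.TY.YHK
import Pool.Agent.helper9.TY.YST
import Pool.Agent.helper18.TY.YWS
import Pool.Agent.helper22.TY.YHY
import Pool.Agent.helper23.TY.YM1
import Pool.Agent.helper28.TY.YOS
import Pool.Agent.helper41.TY.YCI
import Pool.Agent.helper43.TY.Y2A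
import Pool.Agent.helper48.TY.YTA
import Pool.Agent.helper53.TY.YTQ
import Pool.Agent.helper54.TY.YJD
import Pool.Agent.helper60.TY.YFR
import Pool.Agent.helper68.TY.YUP
import Pool.Agent.helper71.TY.YDC
import Pool.Agent.helper72.TY.YCM
import Pool.Agent.helper72.TY.YIC
import Pool.Agent.helper74.TY.YIR
import Pool.Agent.helper75.TY.YJ1
import Pool.Agent.helper76.TY.YWN
import Pool.Agent.helper77.TY.YJC
import Pool.Agent.helper79.TY.YRL
import Pool.Agent.helper12.TY.YKQ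
import Pool.Agent.helper89.TY.YFS
import Pool.Agent.helper92.TY.YWO

/-!
# Project ty (MP_baa4d7_al): assembly
-/

set_option autoImplicit false

namespace Pool.Agent.TY.All

open Pool.Agent.helper58.DC Pool.Agent.DI Pool.Agent.GR Pool.Agent.OB Pool.Agent.TZ Pool.Agent.TY
open Pool.Agent.DR.AllDI Pool.Agent.OB.AllU Pool.Agent.TZ.All

theorem yYDC : YDC_stmt := YDC iA3 iA9 iA10 iA11
theorem yYFS : YFS_stmt := YFS iB2
theorem yYTQ : YTQ_stmt := YTQ iA2 iA4 iA7 iA8 iA14 iB0 iC15 iD4 iD9 iFNx uTOA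
theorem yYRL : YRL_stmt :=
  YRL yYDC yYFS zIQA iA7 iA8 iA14 iB0 iC1 iC10 iC15 iC16 iD0 iD4 iD8 iIMx iFNx uTOA
theorem yYOS : YOS_stmt := YOS iA9
theorem yYCI : YCI_stmt := YCI iNMx iIFx
theorem yPT : PT_stmt := Pool.Agent.helper58.DC.All.dPT Pool.Agent.helper58.DC.All4.dIRP
theorem yPR : PR_stmt :=
  Pool.Agent.helper58.DC.All.dPR Pool.Agent.helper58.DC.All4.dIRP Pool.Agent.helper58.DC.All4.dIRC
theorem yYWF : YWF_stmt := YWF Pool.Agent.helper58.DC.All.dSK yPT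
theorem yYWS : YWS_stmt := YWS yPT Pool.Agent.helper58.DC.All.dSK iIMx iB1
theorem yYWN : YWN_stmt :=
  YWN yYWF yYWS uCL0 uCL1 yPR Pool.Agent.helper58.DC.All.dIS uMB Pool.Agent.helper58.DC.All.dFX yPT uTOA
theorem yYWO : YWO_stmt := YWO Pool.Agent.helper58.DC.All.dOP
theorem yYHY : YHY_stmt := YHY yYWO iC3 iTIx
theorem yYKQ : YKQ_stmt := YKQ
theorem yYTA : YTA_stmt := YTA
theorem yYHK : YHK_stmt := YHK yYKQ yYTA yYWO iIRTx iOIx
theorem yYST : YST_stmt := YST yYRL yYTQ yYOS yYCI yYWF yYWS yYWN yYHY yYHK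
theorem yYUP : YUP_stmt := YUP zUPV yYST
theorem yYIC : YIC_stmt := YIC yYUP zIOP zIOM Pool.Agent.OB.AllG.gDG6
theorem yYIR : YIR_stmt := YIR yYIC zIQR uTOA iFNx
theorem yYCM : YCM_stmt := YCM
theorem yYJ1 : YJ1_stmt := YJ1
theorem yYJD : YJD_stmt := YJD
theorem yYJC : YJC_stmt := YJC yYIR yYCM yYJ1 iREx iSTx iFNx
theorem yYM1 : YM1_stmt := YM1 yYJC iREx iFNx
theorem yYFR : YFR_stmt := YFR
theorem yY2A : Y2A_stmt := Y2A yYM1 yYFR zIPG iSTx iFNx
theorem yY2B : Y2B_stmt := Y2B yY2A yYFR yYJD zIMW iREx iFNx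

end Pool.Agent.TY.All
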