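import Pool.Agent.helper12.TY.Spec

/-!
Row `ty:YKQ`: complements of the base group in the wreath product.
-/

set_option autoImplicit false

namespace Pool.Agent.TY

open Pool.Agent.helper58.DC Pool.Agent.DI Pool.Agent.GR Pool.Agent.OB Pool.Agent.TZ

theorem YKQ_range (p : ℕ) (G : Type) [Group G] (x : WG p G) : x ∈ (WX p G).inc.range ↔ x.l = 1 := by
  constructor
  · rintro ⟨g, rfl⟩
    rfl
  · intro h
    obtain ⟨g, hg⟩ := ((WX p G).exact x).1 h
    exact ⟨g, hg⟩

theorem YKQ : YKQ_stmt := by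
  intro p hp G _ _ Q hQ hQG
  classical
  -- the homomorphism to `Tp p`
  let f : Q →* Tp p :=
    { toFun := fun q => q.1.l
      map_one' := rfl
      map_mul' := fun _ _ => rfl }
  have hf : ∀ q : Q, f q = q.1.l := fun _ => rfl
  have hinj : Function.Injective f := by
    rw [injective_iff_map_eq_one]
    intro q hq
    have h1 : q.1 ∈ Q ⊓ (WX p G).inc.range := ⟨q.2, (YKQ_range p G q.1).2 hq⟩
    rw [hQG, Subgroup.mem_bot] at h1
    exact Subtype.ext h1
  have hcard : Nat.card (Tp p) = p := by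
    have : Nat.card (Tp p) = Nat.card (ZMod p) := Nat.card_congr Multiplicative.toAdd
    rw [this, Nat.card_zmod]
  have hfinT : Finite (Tp p) := Nat.finite_of_card_ne_zero (by rw [hcard]; exact hp.out.ne_zero)
  have hsurj : Function.Surjective f := by
    rw [← MonoidHom.range_eq_top]
    have h1 : f.range = ⊥ ∨ f.range = ⊤ := by
      have h2 : Nat.card f.range ∣ p := by
        have := Subgroup.card_subgroup_dvd_card f.range
        rwa [hcard] at this
      rcases (Nat.dvd_prime hp.out).1 h2 with h3 | h3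
      · left
        exact Subgroup.card_eq_one.1 h3
      · right
        apply Subgroup.eq_top_of_card_eq
        rw [h3, hcard]
    rcases h1 with h1 | h1
    · exfalso
      apply hQ
      rw [Subgroup.eq_bot_iff_forall]
      intro q hq
      have h2 : f ⟨q, hq⟩ ∈ f.range := ⟨_, rfl⟩
      rw [h1, Subgroup.mem_bot, ← f.map_one] at h2
      exact congrArg Subtype.val (hinj h2)
    · exact h1
  choose F hF using hsurj
  have hFl : ∀ s, (F s).1.l = s := fun s => (hf (F s)).symm.trans (hF s)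
  have hFm : ∀ r s, F (r * s) = F r * F s := by
    intro r s
    apply hinj
    rw [map_mul, hF, hF, hF]
  let u : Tp p → G := fun s => (F s).1.f 1
  have hu : ∀ r s, u (r * s) = (F r).1.f s * u s := by
    intro r s
    change (F (r * s)).1.f 1 = (F r).1.f s * (F s).1.f 1
    rw [hFm]
    change (F r).1.f ((F s).1.l • (1 : Tp p)) * (F s).1.f 1 = _
    rw [hFl, smul_eq_mul, mul_one]
  let w : WG p G := (WX p G).inc u
  have hw : ∀ (a : G) (t : Tp p), (w * dg p a * w⁻¹).f t = u t * a * (u t)⁻¹ := by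
    intro a t
    rw [KE.mul_f, KE.mul_f, KE.inv_f]
    have h1 : (w⁻¹).l = (1 : Tp p) := by
      rw [KE.inv_l]
      exact inv_one
    have h2 : (dg p a).l = (1 : Tp p) := rfl
    have h3 : w.l = (1 : Tp p) := rfl
    rw [h1, h2, h3, inv_one, one_smul, one_smul]
    rfl
  have hwl : ∀ a : G, (w * dg p a * w⁻¹).l = 1 := by
    intro a
    rw [KE.mul_l, KE.mul_l, KE.inv_l]
    have h2 : (dg p a).l = (1 : Tp p) := rfl
    have h3 : w.l = (1 : Tp p) := rfl
    rw [h2, h3]
    simp
  refine ⟨w, ⟨u, rfl⟩, fun x => ?_⟩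
  rw [Subgroup.mem_inf, YKQ_range, Subgroup.mem_centralizer_iff]
  constructor
  · rintro ⟨hxl, hx⟩
    refine ⟨x.f 1, ?_⟩
    refine KE.ext ?_ ?_
    · rw [hwl, hxl]
    · funext s
      rw [hw]
      have h1 := hx (F s).1 (F s).2
      have h2 : ((F s).1 * x).f 1 = (x * (F s).1).f 1 := by rw [h1]
      rw [KE.mul_f, KE.mul_f, hxl, hFl, one_smul, smul_eq_mul, mul_one] at h2
      change u s * x.f 1 = x.f s * u s at h2
      rw [h2]
      group
  · rintro ⟨a, rfl⟩
    refine ⟨hwl a, ?_⟩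
    intro q hq
    obtain ⟨r, hr⟩ : ∃ r, F r = ⟨q, hq⟩ := ⟨q.l, hinj (by rw [hF]; rfl)⟩
    have hrq : (F r).1 = q := congrArg Subtype.val hr
    have hql : q.l = r := by rw [← hrq, hFl]
    obtain ⟨y, hy⟩ : ∃ y, y = w * dg p a * w⁻¹ := ⟨_, rfl⟩
    have hyl : y.l = 1 := by rw [hy]; exact hwl a
    have hyf : ∀ t, y.f t = u t * a * (u t)⁻¹ := fun t => by rw [hy]; exact hw a t
    rw [← hy]
    refine KE.ext ?_ ?_
    · rw [KE.mul_l, KE.mul_l, hyl, mul_one, one_mul]
    · funext t
      rw [KE.mul_f, KE.mul_f, hyl, one_smul, hyf, hyf, hql, smul_eq_mul, hu, hrq]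
      group

end Pool.Agent.TY
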